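import Pool.Agent.Helper57_C3.Stmts

/-!
# MP_ce3ba7_al, characteristic 3: module NCLN (helper48)

Alternative algebras of characteristic 3 with `[a,[a,b]] = 0` and `a^3 = 0` are locally nilpotent,
uniformly for all scalar extensions. Derived from the commutative case `LNStmt` with the product
`-(ab + ba)`.
-/

set_option autoImplicit false
set_option linter.unusedSectionVars false

namespace Pool.Agent.C3.H48

open Pool.Agent.TP Pool.Agent.C3 Function
open scoped TensorProduct

/-! ### the ring level -/

/-- hypotheses on the ring -/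
structure Hy (C : Type) [NonUnitalNonAssocRing C] : Prop where
  three : ∀ x : C, x + x + x = 0
  alt : IsAlt C
  eng : ∀ a b : C, cm a (cm a b) = 0
  cube : ∀ a : C, (a * a) * a = 0

section ring

variable {C : Type} [NonUnitalNonAssocRing C]

/-- the commutative product -/
def jo (a b : C) : C := -(a * b + b * a)

theorem jo_comm (a b : C) : jo a b = jo b a := by
  unfold jo; rw [add_comm]

theorem jo_add (a b c : C) : jo a (b + c) = jo a b + jo a c := by
  unfold jo; rw [mul_add, add_mul]; abel

theorem add_jo (a b c : C) : jo (a + b) c = jo a c + jo b c := by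
  unfold jo; rw [mul_add, add_mul]; abel

theorem jo_zero (a : C) : jo a 0 = 0 := by unfold jo; simp

theorem zero_jo (a : C) : jo 0 a = 0 := by unfold jo; simp

theorem jo_neg (a b : C) : jo a (-b) = -jo a b := by
  unfold jo; rw [mul_neg, neg_mul]; abel

theorem neg_jo (a b : C) : jo (-a) b = -jo a b := by
  unfold jo; rw [mul_neg, neg_mul]; abel

theorem cm_neg_comm (a b : C) : cm a b = -cm b a := by
  unfold cm; abel

theorem cm_add (a b c : C) : cm a (b + c) = cm a b + cm a c := by
  unfold cm; rw [mul_add, add_mul]; abel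

theorem add_cm (a b c : C) : cm (a + b) c = cm a c + cm b c := by
  unfold cm; rw [mul_add, add_mul]; abel

theorem cm_zero (a : C) : cm a 0 = 0 := by unfold cm; simp

theorem zero_cm (a : C) : cm 0 a = 0 := by unfold cm; simp

theorem cm_neg (a b : C) : cm a (-b) = -cm a b := by
  unfold cm; rw [mul_neg, neg_mul]; abel

theorem neg_cm (a b : C) : cm (-a) b = -cm a b := by
  unfold cm; rw [mul_neg, neg_mul]; abel

theorem cm_self (a : C) : cm a a = 0 := sub_self _

theorem lin1 (hA : IsAlt C) (a b c : C) : (a * b) * c + (b * a) * c = a * (b * c) + b * (a * c) := by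
  have h := hA.1 (a + b) c
  have h1 := hA.1 a c
  have h2 := hA.1 b c
  simp only [mul_add, add_mul, h1, h2] at h
  have e := congrArg (fun t => t - (a * (a * c) + b * (b * c))) h
  have e1 : a * (a * c) + b * a * c + (a * b * c + b * (b * c)) -
      (a * (a * c) + b * (b * c)) = a * b * c + b * a * c := by abel
  have e2 : a * (a * c) + b * (a * c) + (a * (b * c) + b * (b * c)) -
      (a * (a * c) + b * (b * c)) = a * (b * c) + b * (a * c) := by abel
  rw [e1, e2] at e
  exact e

theorem lin2 (hA : IsAlt C) (a b c : C) : (c * a) * b + (c * b) * a = c * (a * b) + c * (b * a) := by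
  have h := hA.2 (a + b) c
  have h1 := hA.2 a c
  have h2 := hA.2 b c
  simp only [mul_add, add_mul, h1, h2] at h
  have e := congrArg (fun t => t - (c * (a * a) + c * (b * b))) h
  have e1 : c * (a * a) + c * b * a + (c * a * b + c * (b * b)) -
      (c * (a * a) + c * (b * b)) = c * a * b + c * b * a := by abel
  have e2 : c * (a * a) + c * (b * a) + (c * (a * b) + c * (b * b)) -
      (c * (a * a) + c * (b * b)) = c * (a * b) + c * (b * a) := by abel
  rw [e1, e2] at e
  exact e

/-- flexible law -/
theorem flex (hA : IsAlt C) (a b : C) : (a * b) * a = a * (b * a) := by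
  have h := lin1 hA a b a
  have h1 := hA.2 a b
  rw [h1] at h
  exact add_right_cancel h

theorem neg_of_three (h3 : ∀ x : C, x + x + x = 0) (x : C) : -(x + x) = x :=
  neg_eq_of_add_eq_zero_right (h3 x)

/-- commutation is a derivation -/
theorem cm_mul (hA : IsAlt C) (h3 : ∀ x : C, x + x + x = 0) (a b c : C) :
    cm (a * b) c = a * cm b c + cm a c * b := by
  have h1 := lin2 hA b c a
  have h2 := lin1 hA a c b
  have h4 := h3 (a * b * c - a * (b * c))
  unfold cm
  rw [mul_sub, sub_mul]
  rw [← sub_eq_zero] at h1 h2 ⊢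
  have e : a * b * c - c * (a * b) - (a * (b * c) - a * (c * b) + (a * c * b - c * a * b)) =
      (a * b * c - a * (b * c) + (a * b * c - a * (b * c)) + (a * b * c - a * (b * c)))
      - (a * b * c + a * c * b - (a * (b * c) + a * (c * b)))
      - (a * b * c + a * c * b - (a * (b * c) + a * (c * b)))
      + (a * c * b + c * a * b - (a * (c * b) + c * (a * b))) := by abel
  rw [e, h1, h2, h4]
  abel

theorem cm_jo (hA : IsAlt C) (h3 : ∀ x : C, x + x + x = 0) (a b c : C) :
    cm (jo a b) c = jo a (cm b c) + jo (cm a c) b := by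
  have e : cm (jo a b) c = -(cm (a * b) c + cm (b * a) c) := by
    unfold jo
    rw [neg_cm, add_cm]
  rw [e, cm_mul hA h3, cm_mul hA h3]
  unfold jo
  abel

theorem cm_cm (hA : IsAlt C) (h3 : ∀ x : C, x + x + x = 0) (a b c : C) :
    cm (cm a b) c = cm a (cm b c) + cm (cm a c) b := by
  have e : cm (cm a b) c = cm (a * b) c - cm (b * a) c := by
    rw [show cm a b = a * b + -(b * a) from sub_eq_add_neg _ _, add_cm, neg_cm, sub_eq_add_neg]
  rw [e, cm_mul hA h3, cm_mul hA h3]
  unfold cm
  abel

/-- the triple bracket is alternating -/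
theorem t12 (a b c : C) : cm (cm a b) c = -cm (cm b a) c := by
  rw [cm_neg_comm a b, neg_cm]

theorem t23 (he : ∀ a b : C, cm a (cm a b) = 0) (a b c : C) :
    cm (cm a b) c = -cm (cm a c) b := by
  have h := he (b + c) a
  rw [add_cm b c a, cm_add (b + c), add_cm b c, add_cm b c, he b a, he c a, zero_add,
    add_zero] at h
  have e1 : cm (cm a b) c = cm c (cm b a) := by
    rw [cm_neg_comm (cm a b) c, cm_neg_comm a b, cm_neg, neg_neg]
  have e2 : cm (cm a c) b = cm b (cm c a) := by
    rw [cm_neg_comm (cm a c) b, cm_neg_comm a c, cm_neg, neg_neg]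
  rw [e1, e2]
  exact eq_neg_of_add_eq_zero_left h

/-- Lie words of length 4 vanish -/
theorem w4 (he : ∀ a b : C, cm a (cm a b) = 0) (h3 : ∀ x : C, x + x + x = 0) (a b c d : C) :
    cm (cm (cm a b) c) d = 0 := by
  have s12 : ∀ a b c d : C, cm (cm (cm a b) c) d = -cm (cm (cm b a) c) d := fun a b c d => by
    rw [t12 a b c, neg_cm]
  have s23 : ∀ a b c d : C, cm (cm (cm a b) c) d = -cm (cm (cm a c) b) d := fun a b c d => by
    rw [t23 he a b c, neg_cm]
  have s34 : ∀ a b c d : C, cm (cm (cm a b) c) d = -cm (cm (cm a b) d) c := fun a b c d =>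
    t23 he (cm a b) c d
  have p : cm (cm (cm c d) a) b = cm (cm (cm a b) c) d := by
    rw [s23 a b c d, s12 a c b d, s34 c a b d, s23 c a d b]
    simp
  have tc : ∀ x y z : C, cm (cm x y) z = cm (cm z x) y := fun x y z => by
    rw [t23 he x y z, t12 x z y, neg_neg]
  have q1 : cm (cm a b) (cm c d) = cm (cm (cm c d) a) b := tc a b (cm c d)
  have q2 : cm (cm a b) (cm c d) = -cm (cm (cm a b) c) d := by
    rw [cm_neg_comm (cm a b) (cm c d), tc c d (cm a b)]
  rw [q2, p] at q1
  have h := neg_of_three h3 (cm (cm (cm a b) c) d)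
  nth_rw 1 [← q1] at h
  rw [neg_add_cancel, neg_zero] at h
  exact h.symm

end ring

/-! ### the commutative ring -/

/-- type synonym with the commutative product -/
def Jd (C : Type) : Type := C

/-- cast -/
def toJ {C : Type} (a : C) : Jd C := a
/-- cast -/
def unJ {C : Type} (a : Jd C) : C := a

theorem un_to {C : Type} (a : C) : unJ (toJ a) = a := rfl
theorem to_un {C : Type} (a : Jd C) : toJ (unJ a) = a := rfl
theorem unJ_inj {C : Type} {a b : Jd C} (h : unJ a = unJ b) : a = b := h

instance (C : Type) [NonUnitalNonAssocRing C] : AddCommGroup (Jd C) :=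
  inferInstanceAs (AddCommGroup C)

theorem un_add {C : Type} [NonUnitalNonAssocRing C] (a b : Jd C) : unJ (a + b) = unJ a + unJ b :=
  rfl

theorem un_zero {C : Type} [NonUnitalNonAssocRing C] : unJ (0 : Jd C) = 0 := rfl

instance (C : Type) [NonUnitalNonAssocRing C] : Mul (Jd C) := ⟨fun a b => toJ (jo (unJ a) (unJ b))⟩

theorem un_mul' {C : Type} [NonUnitalNonAssocRing C] (a b : Jd C) :
    unJ (a * b) = jo (unJ a) (unJ b) := rfl

instance (C : Type) [NonUnitalNonAssocRing C] : NonUnitalNonAssocCommRing (Jd C) where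
    left_distrib a b c := unJ_inj (jo_add (unJ a) (unJ b) (unJ c))
    right_distrib a b c := unJ_inj (add_jo (unJ a) (unJ b) (unJ c))
    zero_mul a := unJ_inj (zero_jo (unJ a))
    mul_zero a := unJ_inj (jo_zero (unJ a))
    mul_comm a b := unJ_inj (jo_comm (unJ a) (unJ b))

theorem un_mul {C : Type} [NonUnitalNonAssocRing C] (a b : Jd C) :
    unJ (a * b) = jo (unJ a) (unJ b) := rfl

theorem jo_self {C : Type} [NonUnitalNonAssocRing C] (h3 : ∀ x : C, x + x + x = 0) (a : C) :
    jo a a = a * a := neg_of_three h3 (a * a)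

theorem jo_alt {C : Type} [NonUnitalNonAssocRing C] (h : Hy C) (x y : C) :
    jo (jo x x) y = jo x (jo x y) := by
  rw [jo_self h.three]
  have h1 : x * (x * y) + x * (y * x) + y * x * x = 0 := by
    have e := h.eng x y
    have e2 := h.three (x * y * x)
    unfold cm at e
    rw [mul_sub, sub_mul, flex h.alt] at e
    rw [flex h.alt] at e2
    have e3 : x * (x * y) + x * (y * x) + y * x * x =
        (x * (x * y) - x * (y * x) - (x * (y * x) - y * x * x)) +
          (x * (y * x) + x * (y * x) + x * (y * x)) := by abel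
    rw [e3, e, e2, add_zero]
  have a1 : x * x * y = x * (x * y) := h.alt.1 x y
  have a2 : y * (x * x) = y * x * x := (h.alt.2 x y).symm
  have fl : x * y * x = x * (y * x) := flex h.alt x y
  unfold jo
  rw [mul_neg, neg_mul, mul_add, add_mul, a1, a2, fl, ← sub_eq_zero]
  have e4 : (-(x * (x * y) + y * x * x) - -(-(x * (x * y) + x * (y * x)) +
      -(x * (y * x) + y * x * x))) =
      -((x * (x * y) + x * (y * x) + y * x * x) + (x * (x * y) + x * (y * x) + y * x * x)) := by
    abel
  rw [e4, h1, add_zero, neg_zero]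

theorem jo_cube {C : Type} [NonUnitalNonAssocRing C] (h : Hy C) (x : C) :
    jo x (jo x x) = 0 := by
  rw [jo_self h.three]
  have a1 : x * (x * x) = x * x * x := (h.alt.1 x x).symm
  unfold jo
  rw [a1, h.cube x, add_zero, neg_zero]

theorem Jd_ca {C : Type} [NonUnitalNonAssocRing C] (h : Hy C) : CA (Jd C) :=
  ⟨fun x => unJ_inj (h.three (unJ x)), fun x y => unJ_inj (jo_alt h (unJ x) (unJ y))⟩

theorem Jd_cube {C : Type} [NonUnitalNonAssocRing C] (h : Hy C) (x : Jd C) : x * (x * x) = 0 :=
  unJ_inj (jo_cube h (unJ x))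

/-! ### words -/

section words

variable {C : Type} [NonUnitalNonAssocRing C] (m : ℕ)

/-- indices of the Lie words of length at most 3 -/
abbrev Lm : Type := Fin m ⊕ (Fin m × Fin m) ⊕ (Fin m × Fin m × Fin m)

variable {m}

/-- Lie words of length at most 3 -/
def E (a : Fin m → C) : Lm m → C
  | .inl i => a i
  | .inr (.inl (i, j)) => cm (a i) (a j)
  | .inr (.inr (i, j, k)) => cm (cm (a i) (a j)) (a k)

/-- weights -/
def wt1 : Lm m → ℕ
  | .inl _ => 1
  | .inr (.inl _) => 2
  | .inr (.inr _) => 3

/-- weight of a word -/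
def wt : FreeMagma (Lm m) → ℕ
  | .of i => wt1 i
  | .mul u v => wt u + wt v

theorem wt_mul (u v : FreeMagma (Lm m)) : wt (u * v) = wt u + wt v := rfl

theorem wt_le (u : FreeMagma (Lm m)) : wt u ≤ 3 * u.length := by
  induction u using FreeMagma.recOnMul with
  | ih1 i =>
    change wt1 i ≤ 3 * 1
    rcases i with i | i | i <;> simp [wt1]
  | ih2 u v hu hv =>
    rw [wt_mul, show (u * v).length = u.length + v.length from rfl]
    omega

/-- value of a word in the commutative ring -/
def val (a : Fin m → C) (u : FreeMagma (Lm m)) : C :=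
  unJ (FreeMagma.lift (fun i => toJ (E a i)) u)

theorem val_mul (a : Fin m → C) (u v : FreeMagma (Lm m)) :
    val a (u * v) = jo (val a u) (val a v) := by
  unfold val
  rw [map_mul, un_mul]

theorem val_of (a : Fin m → C) (i : Lm m) : val a (FreeMagma.of i) = E a i := by
  unfold val
  rw [FreeMagma.lift_of, un_to]

theorem wt_of (i : Lm m) : wt (FreeMagma.of i) = wt1 i := rfl

/-- the weight spaces -/
def G (a : Fin m → C) (n : ℕ) : AddSubgroup C :=
  AddSubgroup.closure {v | ∃ u : FreeMagma (Lm m), wt u = n ∧ val a u = v}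

theorem G_val (a : Fin m → C) (u : FreeMagma (Lm m)) : val a u ∈ G a (wt u) :=
  AddSubgroup.subset_closure ⟨u, rfl, rfl⟩

/-- biadditive maps which respect the weight on words respect it everywhere -/
theorem G_bi (a : Fin m → C) (f : C → C → C) (h1 : ∀ x y z, f x (y + z) = f x y + f x z)
    (h2 : ∀ x y z, f (x + y) z = f x z + f y z) (h3 : ∀ x y, f x (-y) = -f x y)
    (h4 : ∀ x y, f (-x) y = -f x y) (h5 : ∀ x, f x 0 = 0) (h6 : ∀ x, f 0 x = 0)
    (h : ∀ u v, f (val a u) (val a v) ∈ G a (wt u + wt v)) (i j : ℕ) (x y : C)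
    (hx : x ∈ G a i) (hy : y ∈ G a j) : f x y ∈ G a (i + j) := by
  unfold G at hx
  induction hx using AddSubgroup.closure_induction with
  | mem x hx =>
    obtain ⟨u, rfl, rfl⟩ := hx
    unfold G at hy
    induction hy using AddSubgroup.closure_induction with
    | mem y hy =>
      obtain ⟨v, rfl, rfl⟩ := hy
      exact h u v
    | zero => rw [h5]; exact zero_mem _
    | add y z _ _ hy hz => rw [h1]; exact add_mem hy hz
    | neg y _ hy => rw [h3]; exact neg_mem hy
  | zero => rw [h6]; exact zero_mem _
  | add x z _ _ hx hz => rw [h2]; exact add_mem hx hz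
  | neg x _ hx => rw [h4]; exact neg_mem hx

theorem G_jo (a : Fin m → C) (i j : ℕ) (x y : C) (hx : x ∈ G a i) (hy : y ∈ G a j) :
    jo x y ∈ G a (i + j) :=
  G_bi a jo jo_add add_jo jo_neg neg_jo jo_zero zero_jo
    (fun u v => by rw [← val_mul, ← wt_mul]; exact G_val a _) i j x y hx hy

theorem E_cm (h : Hy C) (a : Fin m → C) (p q : Lm m) : cm (E a p) (E a q) ∈ G a (wt1 p + wt1 q) := by
  have z4 := w4 h.eng h.three
  have mem : ∀ r : Lm m, E a r ∈ G a (wt1 r) := fun r => by
    rw [← val_of, ← wt_of]
    exact G_val a (FreeMagma.of r)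
  rcases p with i | ⟨i, j⟩ | ⟨i, j, k⟩ <;> rcases q with i' | ⟨i', j'⟩ | ⟨i', j', k'⟩
  · exact mem (.inr (.inl (i, i')))
  · have := neg_mem (mem (.inr (.inr (i', j', i))))
    have e : cm (E a (.inl i)) (E a (.inr (.inl (i', j')))) =
        -E a (.inr (.inr (i', j', i))) := cm_neg_comm _ _
    rw [e]
    exact this
  · have e : cm (E a (.inl i)) (E a (.inr (.inr (i', j', k')))) = 0 := by
      rw [cm_neg_comm]
      change -cm (cm (cm (a i') (a j')) (a k')) (a i) = 0
      rw [z4, neg_zero]
    rw [e]; exact zero_mem _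
  · exact mem (.inr (.inr (i, j, i')))
  · have e : cm (E a (.inr (.inl (i, j)))) (E a (.inr (.inl (i', j')))) = 0 := by
      change cm (cm (a i) (a j)) (cm (a i') (a j')) = 0
      rw [t23 h.eng, t12, neg_neg]
      exact z4 _ _ _ _
    rw [e]; exact zero_mem _
  · have e : cm (E a (.inr (.inl (i, j)))) (E a (.inr (.inr (i', j', k')))) = 0 := by
      rw [cm_neg_comm]
      change -cm (cm (cm (a i') (a j')) (a k')) _ = 0
      rw [z4, neg_zero]
    rw [e]; exact zero_mem _
  · have e : cm (E a (.inr (.inr (i, j, k)))) (E a (.inl i')) = 0 := z4 _ _ _ _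
    rw [e]; exact zero_mem _
  · have e : cm (E a (.inr (.inr (i, j, k)))) (E a (.inr (.inl (i', j')))) = 0 := z4 _ _ _ _
    rw [e]; exact zero_mem _
  · have e : cm (E a (.inr (.inr (i, j, k)))) (E a (.inr (.inr (i', j', k')))) = 0 :=
      z4 _ _ _ _
    rw [e]; exact zero_mem _

theorem val_cm1 (h : Hy C) (a : Fin m → C) (q : Lm m) (u : FreeMagma (Lm m)) :
    cm (val a u) (E a q) ∈ G a (wt u + wt1 q) := by
  induction u using FreeMagma.recOnMul with
  | ih1 p => rw [val_of, wt_of]; exact E_cm h a p q
  | ih2 u v hu hv =>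
    rw [val_mul, cm_jo h.alt h.three, wt_mul]
    refine add_mem ?_ ?_
    · have := G_jo a _ _ _ _ (G_val a u) hv
      rw [← add_assoc] at this
      exact this
    · have := G_jo a _ _ _ _ hu (G_val a v)
      have e : wt u + wt1 q + wt v = wt u + wt v + wt1 q := by omega
      rw [e] at this
      exact this

theorem val_cm (h : Hy C) (a : Fin m → C) (u v : FreeMagma (Lm m)) :
    cm (val a u) (val a v) ∈ G a (wt u + wt v) := by
  induction v using FreeMagma.recOnMul with
  | ih1 q => rw [val_of, wt_of]; exact val_cm1 h a q u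
  | ih2 v₁ v₂ h1 h2 =>
    rw [val_mul, cm_neg_comm, cm_jo h.alt h.three, wt_mul]
    refine neg_mem (add_mem ?_ ?_)
    · have h2' : cm (val a v₂) (val a u) ∈ G a (wt u + wt v₂) := by
        rw [cm_neg_comm]; exact neg_mem h2
      have := G_jo a _ _ _ _ (G_val a v₁) h2'
      have e : wt v₁ + (wt u + wt v₂) = wt u + (wt v₁ + wt v₂) := by omega
      rw [e] at this
      exact this
    · have h1' : cm (val a v₁) (val a u) ∈ G a (wt u + wt v₁) := by
        rw [cm_neg_comm]; exact neg_mem h1
      have := G_jo a _ _ _ _ h1' (G_val a v₂)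
      have e : wt u + wt v₁ + wt v₂ = wt u + (wt v₁ + wt v₂) := by omega
      rw [e] at this
      exact this

theorem G_cm (h : Hy C) (a : Fin m → C) (i j : ℕ) (x y : C) (hx : x ∈ G a i) (hy : y ∈ G a j) :
    cm x y ∈ G a (i + j) :=
  G_bi a cm cm_add add_cm cm_neg neg_cm cm_zero zero_cm (val_cm h a) i j x y hx hy

theorem G_mul (h : Hy C) (a : Fin m → C) (i j : ℕ) (x y : C) (hx : x ∈ G a i) (hy : y ∈ G a j) :
    x * y ∈ G a (i + j) := by
  have e : x * y = jo x y - cm x y := by
    have e1 := neg_of_three h.three (x * y)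
    nth_rw 1 [← e1]
    unfold jo cm
    abel
  rw [e]
  exact sub_mem (G_jo a i j x y hx hy) (G_cm h a i j x y hx hy)

theorem lift_mem_G (h : Hy C) (a : Fin m → C) (w : FreeMagma (Fin m)) :
    FreeMagma.lift a w ∈ G a w.length := by
  induction w using FreeMagma.recOnMul with
  | ih1 i =>
    have := G_val a (FreeMagma.of (.inl i))
    rw [val_of, wt_of] at this
    exact this
  | ih2 u v hu hv =>
    rw [map_mul, show (u * v).length = u.length + v.length from rfl]
    exact G_mul h a _ _ _ _ hu hv

end words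

/-- the ring version of the module -/
theorem ncln_ring (hL : LNStmt) (m : ℕ) : ∃ N : ℕ, ∀ (C : Type) [NonUnitalNonAssocRing C], Hy C →
    ∀ (a : Fin m → C) (w : FreeMagma (Fin m)), N ≤ w.length → FreeMagma.lift a w = 0 := by
  obtain ⟨N, hN⟩ := hL (Fintype.card (Lm m))
  refine ⟨3 * N, fun C _ h a w hw => ?_⟩
  have h1 := lift_mem_G h a w
  have key : ∀ n, 3 * N ≤ n → G a n ≤ ⊥ := by
    intro n hn
    unfold G
    rw [AddSubgroup.closure_le]
    rintro _ ⟨u, hu, rfl⟩
    have hlen : N ≤ u.length := by
      have := wt_le u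
      omega
    have eqv : Lm m ≃ Fin (Fintype.card (Lm m)) := Fintype.equivFin _
    have e1 : ∀ u : FreeMagma (Lm m), unJ (FreeMagma.lift (fun i => toJ (E a (eqv.symm i)))
        (FreeMagma.map eqv u)) = val a u := by
      intro u
      induction u using FreeMagma.recOnMul with
      | ih1 i =>
        rw [FreeMagma.map_of, FreeMagma.lift_of, val_of, un_to, Equiv.symm_apply_apply]
      | ih2 u v hu hv =>
        rw [map_mul, map_mul, un_mul, val_mul, hu, hv]
    have e2 : ∀ u : FreeMagma (Lm m), (FreeMagma.map eqv u).length = u.length := by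
      intro u
      induction u using FreeMagma.recOnMul with
      | ih1 i => rfl
      | ih2 u v hu hv =>
        rw [map_mul, show (FreeMagma.map eqv u * FreeMagma.map eqv v).length =
          (FreeMagma.map eqv u).length + (FreeMagma.map eqv v).length from rfl, hu, hv]
        rfl
    have := hN (Jd C) (Jd_ca h) (Jd_cube h) (fun i => toJ (E a (eqv.symm i)))
      (FreeMagma.map eqv u) (by rw [e2]; exact hlen)
    have this := congrArg unJ this
    rw [e1, un_zero] at this
    change val a u ∈ (⊥ : AddSubgroup C)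
    rw [AddSubgroup.mem_bot]
    exact this
  exact (AddSubgroup.mem_bot.mp (key _ hw h1))

/-! ### scalar extension -/

section ext

variable {F : Type} [Field F] {B : Type} [NonUnitalNonAssocRing B] [Module F B]
  [IsScalarTower F B B] [SMulCommClass F B B] {R : Type} [CommRing R] [Algebra F R]

theorem three_of (h3 : (3 : F) = 0) {M : Type} [AddCommGroup M] [Module F M] (x : M) :
    x + x + x = 0 := by
  have : x + x + x = (3 : F) • x := by
    rw [show (3 : F) = 1 + 1 + 1 by norm_num, add_smul, add_smul, one_smul]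
  rw [this, h3, zero_smul]

theorem tri_zero (T : B ⊗[F] R → B ⊗[F] R → B ⊗[F] R → B ⊗[F] R)
    (a1 : ∀ x x' y z, T (x + x') y z = T x y z + T x' y z) (z1 : ∀ y z, T 0 y z = 0)
    (a2 : ∀ x y y' z, T x (y + y') z = T x y z + T x y' z) (z2 : ∀ x z, T x 0 z = 0)
    (a3 : ∀ x y z z', T x y (z + z') = T x y z + T x y z') (z3 : ∀ x y, T x y 0 = 0)
    (h : ∀ a r b s c t, T (a ⊗ₜ r) (b ⊗ₜ s) (c ⊗ₜ t) = 0) (x y z : B ⊗[F] R) : T x y z = 0 := by
  induction x using TensorProduct.induction_on with
  | zero => exact z1 y z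
  | add x x' hx hx' => rw [a1, hx, hx', add_zero]
  | tmul a r =>
    induction y using TensorProduct.induction_on with
    | zero => exact z2 _ z
    | add y y' hy hy' => rw [a2, hy, hy', add_zero]
    | tmul b s =>
      induction z using TensorProduct.induction_on with
      | zero => exact z3 _ _
      | add z z' hz hz' => rw [a3, hz, hz', add_zero]
      | tmul c t => exact h a r b s c t

theorem lin1T (hA : IsAlt B) (x y z : B ⊗[F] R) :
    (x * y) * z + (y * x) * z - (x * (y * z) + y * (x * z)) = 0 := by
  refine tri_zero (fun x y z => (x * y) * z + (y * x) * z - (x * (y * z) + y * (x * z)))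
    ?_ ?_ ?_ ?_ ?_ ?_ ?_ x y z
  · intro x x' y z
    simp only [mul_add, add_mul]
    abel
  · intro y z
    simp
  · intro x y y' z
    simp only [mul_add, add_mul]
    abel
  · intro x z
    simp
  · intro x y z z'
    simp only [mul_add]
    abel
  · intro x y
    simp
  · intro a r b s c t
    simp only [Algebra.TensorProduct.tmul_mul_tmul]
    rw [show s * r * t = r * s * t by ring, show s * (r * t) = r * s * t by ring,
      show r * (s * t) = r * s * t by ring, ← TensorProduct.add_tmul, ← TensorProduct.add_tmul,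
      lin1 hA, sub_self]

theorem lin2T (hA : IsAlt B) (x y z : B ⊗[F] R) :
    (z * x) * y + (z * y) * x - (z * (x * y) + z * (y * x)) = 0 := by
  refine tri_zero (fun x y z => (z * x) * y + (z * y) * x - (z * (x * y) + z * (y * x)))
    ?_ ?_ ?_ ?_ ?_ ?_ ?_ x y z
  · intro x x' y z
    simp only [mul_add, add_mul]
    abel
  · intro y z
    simp
  · intro x y y' z
    simp only [mul_add, add_mul]
    abel
  · intro x z
    simp
  · intro x y z z'
    simp only [add_mul]
    abel
  · intro x y
    simp
  · intro a r b s c t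
    simp only [Algebra.TensorProduct.tmul_mul_tmul]
    rw [show t * s * r = t * r * s by ring, show t * (s * r) = t * r * s by ring,
      show t * (r * s) = t * r * s by ring, ← TensorProduct.add_tmul, ← TensorProduct.add_tmul,
      lin2 hA, sub_self]

theorem lin3T (he : ∀ a b : B, cm a (cm a b) = 0) (x y z : B ⊗[F] R) :
    cm x (cm y z) + cm y (cm x z) = 0 := by
  refine tri_zero (fun x y z => cm x (cm y z) + cm y (cm x z))
    ?_ ?_ ?_ ?_ ?_ ?_ ?_ x y z
  · intro x x' y z
    simp only [cm_add, add_cm]
    abel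
  · intro y z
    simp only [cm_zero, zero_cm, add_zero]
  · intro x y y' z
    simp only [cm_add, add_cm]
    abel
  · intro x z
    simp only [cm_zero, zero_cm, add_zero]
  · intro x y z z'
    simp only [cm_add]
    abel
  · intro x y
    simp only [cm_zero, add_zero]
  · intro a r b s c t
    have e : ∀ (a b : B) (r s : R), cm (a ⊗ₜ[F] r) (b ⊗ₜ[F] s) = cm a b ⊗ₜ[F] (r * s) := by
      intro a b r s
      unfold cm
      rw [Algebra.TensorProduct.tmul_mul_tmul, Algebra.TensorProduct.tmul_mul_tmul,
        mul_comm s r, ← TensorProduct.sub_tmul]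
    change cm (a ⊗ₜ[F] r) (cm (b ⊗ₜ[F] s) (c ⊗ₜ[F] t)) +
      cm (b ⊗ₜ[F] s) (cm (a ⊗ₜ[F] r) (c ⊗ₜ[F] t)) = 0
    rw [e, e, e, e, show s * (r * t) = r * (s * t) by ring, ← TensorProduct.add_tmul]
    have h := he (a + b) c
    rw [add_cm a b c, cm_add (a + b), add_cm a b, add_cm a b, he a c, he b c, zero_add,
      add_zero] at h
    rw [add_comm, h, TensorProduct.zero_tmul]

theorem tmul_cm (a b : B) (r s : R) : cm (a ⊗ₜ[F] r) (b ⊗ₜ[F] s) = cm a b ⊗ₜ[F] (r * s) := by
  unfold cm
  rw [Algebra.TensorProduct.tmul_mul_tmul, Algebra.TensorProduct.tmul_mul_tmul,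
    mul_comm s r, ← TensorProduct.sub_tmul]

theorem altT (hA : IsAlt B) : IsAlt (B ⊗[F] R) := by
  constructor
  · intro x y
    induction x using TensorProduct.induction_on with
    | zero => simp
    | add x x' hx hx' =>
      have h := lin1T hA x x' y
      rw [sub_eq_zero] at h
      simp only [mul_add, add_mul]
      rw [hx, hx']
      have e1 : x * (x * y) + x' * x * y + (x * x' * y + x' * (x' * y)) =
          x * (x * y) + x' * (x' * y) + (x * x' * y + x' * x * y) := by abel
      rw [e1, h]
      abel
    | tmul a r =>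
      induction y using TensorProduct.induction_on with
      | zero => simp
      | add y y' hy hy' => simp only [mul_add]; rw [hy, hy']
      | tmul b s =>
        simp only [Algebra.TensorProduct.tmul_mul_tmul]
        rw [hA.1, mul_assoc]
  · intro x y
    induction x using TensorProduct.induction_on with
    | zero => simp
    | add x x' hx hx' =>
      have h := lin2T hA x x' y
      rw [sub_eq_zero] at h
      simp only [mul_add, add_mul]
      rw [hx, hx']
      have e1 : y * (x * x) + y * x' * x + (y * x * x' + y * (x' * x')) =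
          y * (x * x) + y * (x' * x') + (y * x * x' + y * x' * x) := by abel
      rw [e1, h]
      abel
    | tmul a r =>
      induction y using TensorProduct.induction_on with
      | zero => simp
      | add y y' hy hy' => simp only [add_mul]; rw [hy, hy']
      | tmul b s =>
        simp only [Algebra.TensorProduct.tmul_mul_tmul]
        rw [hA.2, mul_assoc]

theorem engT (he : ∀ a b : B, cm a (cm a b) = 0) (x y : B ⊗[F] R) : cm x (cm x y) = 0 := by
  induction x using TensorProduct.induction_on with
  | zero => rw [zero_cm]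
  | add x x' hx hx' =>
    have h := lin3T he x x' y
    rw [add_cm x x' y, cm_add (x + x'), add_cm x x', add_cm x x', hx, hx', zero_add, add_zero,
      add_comm]
    exact h
  | tmul a r =>
    induction y using TensorProduct.induction_on with
    | zero => rw [cm_zero, cm_zero]
    | add y y' hy hy' => rw [cm_add, cm_add, hy, hy', add_zero]
    | tmul b s => rw [tmul_cm, tmul_cm, he, TensorProduct.zero_tmul]

theorem cubeT (h3 : (3 : F) = 0) (hA : IsAlt B) (he : ∀ a b : B, cm a (cm a b) = 0)
    (hc : ∀ a : B, (a * a) * a = 0) (x : B ⊗[F] R) : (x * x) * x = 0 := by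
  have hAT : IsAlt (B ⊗[F] R) := altT hA
  have h21 : ∀ x y : B ⊗[F] R, x * x * y + x * y * x + y * x * x = 0 := by
    intro x y
    have e := engT he x y
    have e2 := three_of h3 (x * y * x)
    unfold cm at e
    rw [mul_sub, sub_mul, flex hAT, ← hAT.1] at e
    rw [flex hAT] at e2 ⊢
    have e3 : x * x * y + x * (y * x) + y * x * x =
        (x * x * y - x * (y * x) - (x * (y * x) - y * x * x)) +
          (x * (y * x) + x * (y * x) + x * (y * x)) := by abel
    rw [e3, e, e2, add_zero]
  induction x using TensorProduct.induction_on with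
  | zero => simp
  | add x y hx hy =>
    have h1 := h21 x y
    have h2 := h21 y x
    have e : (x + y) * (x + y) * (x + y) = x * x * x + y * y * y +
        (x * x * y + x * y * x + y * x * x) + (y * y * x + y * x * y + x * y * y) := by
      simp only [mul_add, add_mul]
      abel
    rw [e, hx, hy, h1, h2]
    simp
  | tmul a r =>
    simp only [Algebra.TensorProduct.tmul_mul_tmul]
    rw [hc, TensorProduct.zero_tmul]

end ext

/-- MODULE NCLN from module LN -/
theorem ncln (hL : LNStmt) : NclnStmt := by
  intro F _ h3 B _ _ _ _ hA he hc m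
  obtain ⟨N, hN⟩ := ncln_ring hL m
  refine ⟨N, fun R _ _ b w hw => ?_⟩
  exact hN (B ⊗[F] R) ⟨fun x => three_of h3 x, altT hA, engT he, cubeT h3 hA he hc⟩ b w hw

end Pool.Agent.C3.H48
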