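import Pool.Agent.Helper57_C3.Stmts

/-!
# MP_ce3ba7_al, characteristic 3: module BASE (helper48)

In a commutative maximal algebra with a multilinear identity of coefficient sum 1 all polynomial
alternating multiderivations of large arity vanish.
-/

set_option autoImplicit false
set_option linter.unusedSectionVars false

namespace Pool.Agent.C3.H48

open Pool.Agent.TP Pool.Agent.C3 Function

section tree

variable {B : Type} [NonUnitalNonAssocCommRing B]

theorem jid (hB : CA B) (a b c : B) : (a * b) * c = -(a * (b * c) + b * (a * c)) := by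
  have h := hB.alt (a + b) c
  have h1 := hB.alt a c
  have h2 := hB.alt b c
  have h3 := hB.three ((a * b) * c)
  simp only [mul_add, add_mul, h1, h2, mul_comm b a] at h
  have h4 : (a * b) * c + (a * b) * c = a * (b * c) + b * (a * c) := by
    have e : a * (a * c) + a * b * c + (a * b * c + b * (b * c)) -
        (a * (a * c) + b * (b * c)) =
        a * (a * c) + b * (a * c) + (a * (b * c) + b * (b * c)) -
        (a * (a * c) + b * (b * c)) := by rw [h]
    have e1 : a * (a * c) + a * b * c + (a * b * c + b * (b * c)) -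
        (a * (a * c) + b * (b * c)) = a * b * c + a * b * c := by abel
    have e2 : a * (a * c) + b * (a * c) + (a * (b * c) + b * (b * c)) -
        (a * (a * c) + b * (b * c)) = a * (b * c) + b * (a * c) := by abel
    rw [e1, e2] at e
    exact e
  rw [← h4]
  exact eq_neg_of_add_eq_zero_left (by rw [← add_assoc]; exact h3)

/-- product rule in slot `i` -/
def DerAt (ψ : (ℕ → B) → B) (i : ℕ) : Prop :=
  ∀ v a b, ψ (update v i (a * b)) = a * ψ (update v i b) + b * ψ (update v i a)

theorem lift_congr {v v' : ℕ → B} (w : FreeMagma ℕ) (h : ∀ i ∈ lv w, v i = v' i) :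
    FreeMagma.lift v w = FreeMagma.lift v' w := by
  induction w using FreeMagma.recOnMul with
  | ih1 i =>
    rw [FreeMagma.lift_of, FreeMagma.lift_of]
    exact h i (by simp [lv])
  | ih2 a b iha ihb =>
    have e : lv (a * b) = lv a + lv b := rfl
    rw [e] at h
    rw [map_mul, map_mul, iha fun i hi => h i (Multiset.mem_add.mpr (Or.inl hi)),
      ihb fun i hi => h i (Multiset.mem_add.mpr (Or.inr hi))]

/-- sum over the subsets of a disjoint union -/
theorem sum_pow {M : Type} [AddCommMonoid M] (A₁ A₂ : Finset ℕ) (hd : Disjoint A₁ A₂)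
    (G : Finset ℕ → M) : ∑ t ∈ (A₁ ∪ A₂).powerset, G t =
      ∑ t₁ ∈ A₁.powerset, ∑ t₂ ∈ A₂.powerset, G (t₁ ∪ t₂) := by
  rw [← Finset.sum_product']
  symm
  refine Finset.sum_nbij' (fun p => p.1 ∪ p.2) (fun t => (t ∩ A₁, t ∩ A₂)) ?_ ?_ ?_ ?_ ?_
  · rintro ⟨t₁, t₂⟩ h
    simp only [Finset.mem_product, Finset.mem_powerset] at h ⊢
    exact Finset.union_subset_union h.1 h.2
  · intro t _
    simp only [Finset.mem_product, Finset.mem_powerset]
    exact ⟨Finset.inter_subset_right, Finset.inter_subset_right⟩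
  · rintro ⟨t₁, t₂⟩ h
    simp only [Finset.mem_product, Finset.mem_powerset] at h
    have h1 : t₂ ∩ A₁ = ∅ := by
      rw [← Finset.disjoint_iff_inter_eq_empty]
      exact (hd.mono_right h.2).symm
    have h2 : t₁ ∩ A₂ = ∅ := by
      rw [← Finset.disjoint_iff_inter_eq_empty]
      exact hd.mono_left h.1
    simp only [Finset.union_inter_distrib_right, h1, h2, Finset.inter_eq_left.mpr h.1,
      Finset.inter_eq_left.mpr h.2, Finset.union_empty, Finset.empty_union]
  · intro t h
    simp only [Finset.mem_powerset] at h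
    simp only [← Finset.inter_union_distrib_left, Finset.inter_eq_left.mpr h]
  · intro _ _
    rfl

theorem tree (hB : CA B) (w : FreeMagma ℕ) : ∀ A : Finset ℕ, lv w = A.val →
    ∀ ψ : (ℕ → B) → B, (∀ i ∈ A, DerAt ψ i) → ∀ x y u : ℕ → B,
    ∑ t ∈ A.powerset, FreeMagma.lift (fun i => if i ∈ t then y i else x i) w *
      ψ (fun i => if i ∈ A then (if i ∈ t then x i else y i) else u i) =
    ψ (fun i => if i ∈ A then x i * y i else u i) := by
  induction w using FreeMagma.recOnMul with
  | ih1 j =>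
    intro A hA ψ hψ x y u
    have hA' : A = {j} := by
      apply Finset.val_injective
      rw [← hA]
      rfl
    subst hA'
    have e0 : ({j} : Finset ℕ).powerset = {∅, {j}} := by
      ext t
      simp [Finset.subset_singleton_iff]
    have e1 : ∀ z : ℕ → B, (fun i => if i ∈ ({j} : Finset ℕ) then z i else u i) =
        update u j (z j) := by
      intro z
      funext i
      by_cases hi : i = j
      · subst hi; simp
      · simp [hi]
    rw [e0, Finset.sum_pair (by simp), e1, e1, e1, FreeMagma.lift_of, FreeMagma.lift_of,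
      hψ j (by simp)]
    simp
  | ih2 w₁ w₂ ih1 ih2 =>
    intro A hA ψ hψ x y u
    have e : lv (w₁ * w₂) = lv w₁ + lv w₂ := rfl
    rw [e] at hA
    have hnd : (lv w₁ + lv w₂).Nodup := by rw [hA]; exact A.nodup
    rw [Multiset.nodup_add] at hnd
    obtain ⟨hn1, hn2, hd⟩ := hnd
    set A₁ : Finset ℕ := ⟨lv w₁, hn1⟩ with hA1
    set A₂ : Finset ℕ := ⟨lv w₂, hn2⟩ with hA2
    have hdis : Disjoint A₁ A₂ := by
      rw [← Finset.disjoint_val]
      exact hd
    have hAu : A = A₁ ∪ A₂ := by
      rw [← Finset.disjUnion_eq_union _ _ hdis]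
      apply Finset.val_injective
      rw [← hA]
      rfl
    have hm1 : ∀ i, i ∈ A₁ → i ∉ A₂ := fun i h1 h2 => Finset.disjoint_left.mp hdis h1 h2
    have hm2 : ∀ i, i ∈ A₂ → i ∉ A₁ := fun i h1 h2 => Finset.disjoint_left.mp hdis h2 h1
    rw [hAu, sum_pow A₁ A₂ hdis]
    -- values of the two factors
    have v1 : ∀ t₁ ∈ A₁.powerset, ∀ t₂ ∈ A₂.powerset,
        FreeMagma.lift (fun i => if i ∈ t₁ ∪ t₂ then y i else x i) w₁ =
        FreeMagma.lift (fun i => if i ∈ t₁ then y i else x i) w₁ := by
      intro t₁ h1 t₂ h2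
      refine lift_congr w₁ fun i hi => ?_
      have hi2 : i ∉ t₂ := fun h => hm1 i hi (Finset.mem_powerset.mp h2 h)
      simp [hi2]
    have v2 : ∀ t₁ ∈ A₁.powerset, ∀ t₂ ∈ A₂.powerset,
        FreeMagma.lift (fun i => if i ∈ t₁ ∪ t₂ then y i else x i) w₂ =
        FreeMagma.lift (fun i => if i ∈ t₂ then y i else x i) w₂ := by
      intro t₁ h1 t₂ h2
      refine lift_congr w₂ fun i hi => ?_
      have hi2 : i ∉ t₁ := fun h => hm2 i hi (Finset.mem_powerset.mp h1 h)
      simp [hi2]
    have hψ1 : ∀ i ∈ A₁, DerAt ψ i := fun i hi => hψ i (by rw [hAu]; exact Finset.mem_union_left _ hi)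
    have hψ2 : ∀ i ∈ A₂, DerAt ψ i := fun i hi => hψ i (by rw [hAu]; exact Finset.mem_union_right _ hi)
    -- first order
    have t1 : ∑ t₁ ∈ A₁.powerset, ∑ t₂ ∈ A₂.powerset,
        FreeMagma.lift (fun i => if i ∈ t₁ then y i else x i) w₁ *
          (FreeMagma.lift (fun i => if i ∈ t₂ then y i else x i) w₂ *
            ψ (fun i => if i ∈ A₁ ∪ A₂ then (if i ∈ t₁ ∪ t₂ then x i else y i) else u i)) =
        ψ (fun i => if i ∈ A₁ ∪ A₂ then x i * y i else u i) := by
      have s1 : ∀ t₁ ∈ A₁.powerset, ∑ t₂ ∈ A₂.powerset,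
          FreeMagma.lift (fun i => if i ∈ t₁ then y i else x i) w₁ *
          (FreeMagma.lift (fun i => if i ∈ t₂ then y i else x i) w₂ *
            ψ (fun i => if i ∈ A₁ ∪ A₂ then (if i ∈ t₁ ∪ t₂ then x i else y i) else u i)) =
          FreeMagma.lift (fun i => if i ∈ t₁ then y i else x i) w₁ *
            ψ (fun i => if i ∈ A₁ then (if i ∈ t₁ then x i else y i) else
              (if i ∈ A₂ then x i * y i else u i)) := by
        intro t₁ h1
        rw [← Finset.mul_sum]
        congr 1
        have := ih2 A₂ rfl ψ hψ2 x y (fun i => if i ∈ A₁ then (if i ∈ t₁ then x i else y i) else u i)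
        have e3 : (fun i => if i ∈ A₁ then (if i ∈ t₁ then x i else y i) else
              (if i ∈ A₂ then x i * y i else u i)) = fun i => if i ∈ A₂ then x i * y i else
              (if i ∈ A₁ then (if i ∈ t₁ then x i else y i) else u i) := by
          funext i
          by_cases hi1 : i ∈ A₁
          · simp [hi1, hm1 i hi1]
          · simp [hi1]
        rw [e3, ← this]
        refine Finset.sum_congr rfl fun t₂ h2 => ?_
        congr 2
        funext i
        by_cases hi1 : i ∈ A₁
        · have : i ∉ t₂ := fun h => hm1 i hi1 (Finset.mem_powerset.mp h2 h)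
          simp [hi1, hm1 i hi1, this]
        · have : i ∉ t₁ := fun h => hi1 (Finset.mem_powerset.mp h1 h)
          simp [hi1, this]
      rw [Finset.sum_congr rfl s1, ih1 A₁ rfl ψ hψ1 x y (fun i => if i ∈ A₂ then x i * y i else u i)]
      congr 1
      funext i
      by_cases hi1 : i ∈ A₁ <;> by_cases hi2 : i ∈ A₂ <;> simp [hi1, hi2]
    have t2 : ∑ t₁ ∈ A₁.powerset, ∑ t₂ ∈ A₂.powerset,
        FreeMagma.lift (fun i => if i ∈ t₂ then y i else x i) w₂ *
          (FreeMagma.lift (fun i => if i ∈ t₁ then y i else x i) w₁ *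
            ψ (fun i => if i ∈ A₁ ∪ A₂ then (if i ∈ t₁ ∪ t₂ then x i else y i) else u i)) =
        ψ (fun i => if i ∈ A₁ ∪ A₂ then x i * y i else u i) := by
      rw [Finset.sum_comm]
      have s1 : ∀ t₂ ∈ A₂.powerset, ∑ t₁ ∈ A₁.powerset,
          FreeMagma.lift (fun i => if i ∈ t₂ then y i else x i) w₂ *
          (FreeMagma.lift (fun i => if i ∈ t₁ then y i else x i) w₁ *
            ψ (fun i => if i ∈ A₁ ∪ A₂ then (if i ∈ t₁ ∪ t₂ then x i else y i) else u i)) =
          FreeMagma.lift (fun i => if i ∈ t₂ then y i else x i) w₂ *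
            ψ (fun i => if i ∈ A₂ then (if i ∈ t₂ then x i else y i) else
              (if i ∈ A₁ then x i * y i else u i)) := by
        intro t₂ h2
        rw [← Finset.mul_sum]
        congr 1
        have := ih1 A₁ rfl ψ hψ1 x y (fun i => if i ∈ A₂ then (if i ∈ t₂ then x i else y i) else u i)
        have e3 : (fun i => if i ∈ A₂ then (if i ∈ t₂ then x i else y i) else
              (if i ∈ A₁ then x i * y i else u i)) = fun i => if i ∈ A₁ then x i * y i else
              (if i ∈ A₂ then (if i ∈ t₂ then x i else y i) else u i) := by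
          funext i
          by_cases hi1 : i ∈ A₁
          · simp [hi1, hm1 i hi1]
          · simp [hi1]
        rw [e3, ← this]
        refine Finset.sum_congr rfl fun t₁ h1 => ?_
        congr 2
        funext i
        by_cases hi1 : i ∈ A₁
        · have : i ∉ t₂ := fun h => hm1 i hi1 (Finset.mem_powerset.mp h2 h)
          simp [hi1, this]
        · have : i ∉ t₁ := fun h => hi1 (Finset.mem_powerset.mp h1 h)
          simp [hi1, this]
      rw [Finset.sum_congr rfl s1, ih2 A₂ rfl ψ hψ2 x y (fun i => if i ∈ A₁ then x i * y i else u i)]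
      congr 1
      funext i
      by_cases hi1 : i ∈ A₁ <;> by_cases hi2 : i ∈ A₂ <;> simp [hi1, hi2]
    have fin : ∑ t₁ ∈ A₁.powerset, ∑ t₂ ∈ A₂.powerset,
        FreeMagma.lift (fun i => if i ∈ t₁ ∪ t₂ then y i else x i) (w₁ * w₂) *
          ψ (fun i => if i ∈ A₁ ∪ A₂ then (if i ∈ t₁ ∪ t₂ then x i else y i) else u i) =
        -(ψ (fun i => if i ∈ A₁ ∪ A₂ then x i * y i else u i) +
          ψ (fun i => if i ∈ A₁ ∪ A₂ then x i * y i else u i)) := by
      conv_rhs => rw [← t1]
      conv_rhs => arg 1; arg 2; rw [t1, ← t2]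
      rw [← Finset.sum_add_distrib, ← Finset.sum_neg_distrib]
      refine Finset.sum_congr rfl fun t₁ h1 => ?_
      rw [← Finset.sum_add_distrib, ← Finset.sum_neg_distrib]
      refine Finset.sum_congr rfl fun t₂ h2 => ?_
      rw [map_mul, v1 t₁ h1 t₂ h2, v2 t₁ h1 t₂ h2, jid hB]
    rw [fin]
    have h3 := hB.three (ψ (fun i => if i ∈ A₁ ∪ A₂ then x i * y i else u i))
    rw [add_assoc] at h3
    exact (eq_neg_of_add_eq_zero_left h3).symm

end tree

section ident

variable {F : Type} [Field F] {B : Type} [NonUnitalNonAssocCommRing B] [Module F B]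
  [IsScalarTower F B B] [SMulCommClass F B B]

/-- evaluation of an element of the free algebra -/
theorem lm_apply (φ : ℕ → B) (f : MonoidAlgebra F (FreeMagma ℕ)) :
    MonoidAlgebra.liftMagma F (FreeMagma.lift φ) f =
      ∑ w ∈ f.coeff.support, f.coeff w • FreeMagma.lift φ w := by
  rw [MonoidAlgebra.liftMagma_apply_apply]
  rfl

theorem prod_zero (hB : CA B) (n : ℕ) (f : MonoidAlgebra F (FreeMagma ℕ))
    (h1 : ∀ w ∈ f.coeff.support, lv w = Multiset.range n)
    (h2 : (f.coeff.sum fun _ c => c) = 1)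
    (h3 : ∀ φ : ℕ → B, MonoidAlgebra.liftMagma F (FreeMagma.lift φ) f = 0)
    (ψ : (ℕ → B) → B) (hψ : ∀ i < n, DerAt ψ i) (x y u : ℕ → B) :
    ψ (fun i => if i < n then x i * y i else u i) = 0 := by
  have key : ∀ w ∈ f.coeff.support,
      ∑ t ∈ (Finset.range n).powerset, FreeMagma.lift (fun i => if i ∈ t then y i else x i) w *
      ψ (fun i => if i ∈ Finset.range n then (if i ∈ t then x i else y i) else u i) =
      ψ (fun i => if i ∈ Finset.range n then x i * y i else u i) := fun w hw =>
    tree hB w (Finset.range n) (h1 w hw) ψ (fun i hi => hψ i (Finset.mem_range.mp hi)) x y u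
  have e0 : ∑ t ∈ (Finset.range n).powerset,
      MonoidAlgebra.liftMagma F (FreeMagma.lift (fun i => if i ∈ t then y i else x i)) f *
      ψ (fun i => if i ∈ Finset.range n then (if i ∈ t then x i else y i) else u i) = 0 :=
    Finset.sum_eq_zero fun t _ => by rw [h3, zero_mul]
  have e1 : ∑ w ∈ f.coeff.support, f.coeff w •
      ψ (fun i => if i ∈ Finset.range n then x i * y i else u i) = 0 := by
    rw [← e0]
    have : ∀ t ∈ (Finset.range n).powerset,
        MonoidAlgebra.liftMagma F (FreeMagma.lift (fun i => if i ∈ t then y i else x i)) f *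
        ψ (fun i => if i ∈ Finset.range n then (if i ∈ t then x i else y i) else u i) =
        ∑ w ∈ f.coeff.support, f.coeff w •
          (FreeMagma.lift (fun i => if i ∈ t then y i else x i) w *
          ψ (fun i => if i ∈ Finset.range n then (if i ∈ t then x i else y i) else u i)) := by
      intro t _
      rw [lm_apply, Finset.sum_mul]
      refine Finset.sum_congr rfl fun w _ => ?_
      rw [smul_mul_assoc]
    rw [Finset.sum_congr rfl this, Finset.sum_comm]
    refine Finset.sum_congr rfl fun w hw => ?_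
    rw [← Finset.smul_sum, key w hw]
  rw [← Finset.sum_smul] at e1
  have e2 : (∑ w ∈ f.coeff.support, f.coeff w) = 1 := h2
  rw [e2, one_smul] at e1
  have e3 : (fun i => if i < n then x i * y i else u i) =
      fun i => if i ∈ Finset.range n then x i * y i else u i := by
    funext i
    simp only [Finset.mem_range]
  rw [e3]
  exact e1

end ident

/-! ### the span of the products -/

section span

variable (F : Type) [Field F] (B : Type) [NonUnitalNonAssocCommRing B] [Module F B]
  [IsScalarTower F B B] [SMulCommClass F B B]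

/-- sums of products -/
def BB : Submodule F B where
  carrier := AddSubmonoid.closure {b | ∃ x y : B, x * y = b}
  add_mem' ha hb := add_mem ha hb
  zero_mem' := zero_mem _
  smul_mem' c a ha := by
    induction ha using AddSubmonoid.closure_induction with
    | mem a ha =>
      obtain ⟨x, y, rfl⟩ := ha
      exact AddSubmonoid.subset_closure ⟨c • x, y, smul_mul_assoc c x y⟩
    | zero => rw [smul_zero]; exact zero_mem _
    | add a b _ _ ha hb => rw [smul_add]; exact add_mem ha hb

theorem mul_mem_BB (x y : B) : x * y ∈ BB F B := AddSubmonoid.subset_closure ⟨x, y, rfl⟩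

variable {F B}

theorem BB_induction {p : B → Prop} (h1 : ∀ x y, p (x * y)) (h0 : p 0)
    (h2 : ∀ a b, p a → p b → p (a + b)) (a : B) (ha : a ∈ BB F B) : p a := by
  have ha' : a ∈ AddSubmonoid.closure {b | ∃ x y : B, x * y = b} := ha
  refine AddSubmonoid.closure_induction (motive := fun a _ => p a) ?_ h0 ?_ ha'
  · rintro _ ⟨x, y, rfl⟩
    exact h1 x y
  · intro a b _ _ iha ihb
    exact h2 a b iha ihb

/-- additivity in slot `i` -/
def AddAt (ψ : (ℕ → B) → B) (i : ℕ) : Prop :=
  ∀ v a b, ψ (update v i (a + b)) = ψ (update v i a) + ψ (update v i b)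

theorem AddAt.zero {ψ : (ℕ → B) → B} {i : ℕ} (h : AddAt ψ i) (v : ℕ → B) :
    ψ (update v i 0) = 0 := by
  have := h v 0 0
  rw [add_zero] at this
  exact left_eq_add.mp this

theorem span_zero (n : ℕ) (ψ : (ℕ → B) → B) (hadd : ∀ i < n, AddAt ψ i)
    (h : ∀ x y u : ℕ → B, ψ (fun i => if i < n then x i * y i else u i) = 0) :
    ∀ k ≤ n, ∀ x y u : ℕ → B, (∀ i < k, u i ∈ BB F B) →
      ψ (fun i => if i < n then (if i < k then u i else x i * y i) else u i) = 0 := by
  intro k
  induction k with
  | zero =>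
    intro _ x y u _
    simpa using h x y u
  | succ k ih =>
    intro hk x y u hu
    have e : (fun i => if i < n then (if i < k + 1 then u i else x i * y i) else u i) =
        update (fun i => if i < n then (if i < k then u i else x i * y i) else u i) k (u k) := by
      funext i
      by_cases hi : i = k
      · subst hi
        simp
      · rw [update_of_ne hi]
        have : i < k + 1 ↔ i < k := by omega
        simp only [this]
    rw [e]
    refine BB_induction (F := F) (p := fun b => ψ (update (fun i => if i < n then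
      (if i < k then u i else x i * y i) else u i) k b) = 0) ?_ ?_ ?_ (u k) (hu k (by omega))
    · intro a b
      have := ih (by omega) (update x k a) (update y k b) u fun i hi => hu i (by omega)
      rw [← this]
      congr 1
      funext i
      by_cases hi : i = k
      · subst hi
        have : i < n := by omega
        simp [this]
      · simp [hi]
    · exact (hadd k (by omega)).zero _
    · intro a b ha hb
      rw [hadd k (by omega), ha, hb, add_zero]

end span

/-! ### representation of polynomial functions -/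

section rep

variable {F : Type} [Field F] {S : Set (MonoidAlgebra F (FreeMagma ℕ))}
  {B : Type} [NonUnitalNonAssocCommRing B] [Module F B]
  [IsScalarTower F B B] [SMulCommClass F B B] {x : ℕ → B}

variable (F) in
/-- the element `g` represents the function `P` -/
structure Rep (x : ℕ → B) {ι : Type} (e : ι → ℕ) (N : ℕ) (P : (ι → B) → B) (g : B) : Prop where
  val : ∀ Φ : B →ₙₐ[F] B, (∀ i < N, Φ (x i) = x i) → P (fun i => Φ (x (N + e i))) = Φ g
  dep : ∀ Φ Ψ : B →ₙₐ[F] B, (∀ i < N, Φ (x i) = Ψ (x i)) →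
    (∀ i, Φ (x (N + e i)) = Ψ (x (N + e i))) → Φ g = Ψ g

theorem exists_rep (h : MaxAlg F S B x) {ι : Type} (e : ι → ℕ) (P : (ι → B) → B)
    (hP : PolyF B ι P) : ∃ N₀, ∀ N, N₀ ≤ N → ∃ g, Rep F x e N P g := by
  induction hP with
  | proj i =>
    exact ⟨0, fun N _ => ⟨x (N + e i), fun Φ _ => rfl, fun Φ Ψ _ h2 => h2 i⟩⟩
  | const b =>
    obtain ⟨n, hn⟩ := h.rel.fin b
    refine ⟨n, fun N hN => ⟨b, fun Φ hΦ => ?_, fun Φ Ψ h1 _ => ?_⟩⟩
    · have := hn Φ (NonUnitalAlgHom.id F B) fun i hi => by
        rw [hΦ i (by omega)]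
        rfl
      rw [this]
      rfl
    · exact hn Φ Ψ fun i hi => h1 i (by omega)
  | add f g _ _ ihf ihg =>
    obtain ⟨N₁, h1⟩ := ihf
    obtain ⟨N₂, h2⟩ := ihg
    refine ⟨max N₁ N₂, fun N hN => ?_⟩
    obtain ⟨a, ha⟩ := h1 N (le_trans (le_max_left _ _) hN)
    obtain ⟨b, hb⟩ := h2 N (le_trans (le_max_right _ _) hN)
    refine ⟨a + b, fun Φ hΦ => ?_, fun Φ Ψ h1 h2 => ?_⟩
    · rw [map_add, ← ha.val Φ hΦ, ← hb.val Φ hΦ]
    · rw [map_add, map_add, ha.dep Φ Ψ h1 h2, hb.dep Φ Ψ h1 h2]
  | sub f g _ _ ihf ihg =>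
    obtain ⟨N₁, h1⟩ := ihf
    obtain ⟨N₂, h2⟩ := ihg
    refine ⟨max N₁ N₂, fun N hN => ?_⟩
    obtain ⟨a, ha⟩ := h1 N (le_trans (le_max_left _ _) hN)
    obtain ⟨b, hb⟩ := h2 N (le_trans (le_max_right _ _) hN)
    refine ⟨a - b, fun Φ hΦ => ?_, fun Φ Ψ h1 h2 => ?_⟩
    · rw [map_sub, ← ha.val Φ hΦ, ← hb.val Φ hΦ]
    · rw [map_sub, map_sub, ha.dep Φ Ψ h1 h2, hb.dep Φ Ψ h1 h2]
  | mul f g _ _ ihf ihg =>
    obtain ⟨N₁, h1⟩ := ihf
    obtain ⟨N₂, h2⟩ := ihg
    refine ⟨max N₁ N₂, fun N hN => ?_⟩
    obtain ⟨a, ha⟩ := h1 N (le_trans (le_max_left _ _) hN)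
    obtain ⟨b, hb⟩ := h2 N (le_trans (le_max_right _ _) hN)
    refine ⟨a * b, fun Φ hΦ => ?_, fun Φ Ψ h1 h2 => ?_⟩
    · rw [map_mul, ← ha.val Φ hΦ, ← hb.val Φ hΦ]
    · rw [map_mul, map_mul, ha.dep Φ Ψ h1 h2, hb.dep Φ Ψ h1 h2]

theorem hom_BB (Φ : B →ₙₐ[F] B) (b : B) (hb : b ∈ BB F B) : Φ b ∈ BB F B := by
  refine BB_induction (F := F) (p := fun b => Φ b ∈ BB F B) ?_ ?_ ?_ b hb
  · intro x y
    rw [map_mul]
    exact mul_mem_BB F B _ _
  · rw [map_zero]
    exact zero_mem _
  · intro a b ha hb
    rw [map_add]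
    exact add_mem ha hb

/-- multiderivations vanish when all arguments are sums of products -/
theorem all_BB (hB : CA B) (hf : HasML F B) : ∃ n : ℕ, ∀ (ι : Type) [Fintype ι] [DecidableEq ι],
    n ≤ Fintype.card ι → ∀ ψ : (ι → B) → B, AD ψ → ∀ z : ι → B, (∀ i, z i ∈ BB F B) →
      ψ z = 0 := by
  obtain ⟨n, f, h1, h2, h3⟩ := hf
  refine ⟨n, fun ι _ _ hc ψ hA z hz => ?_⟩
  set eq : ι ≃ Fin (Fintype.card ι) := Fintype.equivFin ι with heq
  set e : ι → ℕ := fun i => (eq i).val with he
  have hinj : Injective e := fun i j hij => eq.injective (Fin.ext hij)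
  set ψ' : (ℕ → B) → B := fun v => ψ (fun i => v (e i)) with hψ'
  set u : ℕ → B := fun j => if hj : j < Fintype.card ι then z (eq.symm ⟨j, hj⟩) else 0 with hu
  have hue : ∀ i, u (e i) = z i := by
    intro i
    have hlt : e i < Fintype.card ι := (eq i).isLt
    simp only [hu, dif_pos hlt]
    congr 1
    rw [Equiv.symm_apply_eq]
  have hupd : ∀ j (hj : j < n) (v : ℕ → B) (a : B), ψ' (update v j a) =
      ψ (update (fun i => v (e i)) (eq.symm ⟨j, by omega⟩) a) := by
    intro j hj v a
    have hj2 : j = e (eq.symm ⟨j, by omega⟩) := by simp [he]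
    simp only [hψ']
    congr 1
    funext i
    by_cases hi : i = eq.symm ⟨j, by omega⟩
    · subst hi
      rw [update_self, ← hj2, update_self]
    · rw [update_of_ne hi, update_of_ne]
      intro h
      apply hi
      apply hinj
      rw [← hj2]
      exact h
  have hder : ∀ j < n, DerAt ψ' j := by
    intro j hj v a b
    rw [hupd j hj, hupd j hj, hupd j hj, hA.leib]
  have hadd : ∀ j < n, AddAt ψ' j := by
    intro j hj v a b
    rw [hupd j hj, hupd j hj, hupd j hj, hA.add]
  have key := span_zero (F := F) n ψ' hadd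
    (fun x y u => prod_zero hB n f h1 h2 h3 ψ' hder x y u) n le_rfl (fun _ => 0) (fun _ => 0) u
    (fun i hi => by
      have hlt : i < Fintype.card ι := by omega
      simp only [hu, dif_pos hlt]
      exact hz _)
  have e1 : (fun i => if i < n then (if i < n then u i else (0 : B) * 0) else u i) = u := by
    funext i
    by_cases hi : i < n <;> simp [hi]
  rw [e1] at key
  have e2 : ψ' u = ψ z := by
    simp only [hψ']
    congr 1
    funext i
    exact hue i
  rw [← e2]
  exact key

end rep

/-- MODULE BASE -/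
theorem baseF : BaseStmt := by
  intro F _ S B _ _ _ _ x hB hM hf
  obtain ⟨n, hn⟩ := all_BB hB hf
  refine ⟨n, fun m hm ι _ _ hc ψ hψ hA z => ?_⟩
  set eq : ι ≃ Fin (Fintype.card ι) := Fintype.equivFin ι with heq
  set e : ι → ℕ := fun i => (eq i).val with he
  obtain ⟨N, hN⟩ := exists_rep hM e ψ hψ
  obtain ⟨g, hg⟩ := hN N le_rfl
  have hg0 : g = 0 := by
    refine hM.lemQ (BB F B) (fun a _ b _ => mul_mem_BB F B a b) 1 (fun φ => ?_) g
      fun Φ hΦ => ?_
    · have : FreeMagma.lift φ (H67.dd 1 0) = φ 0 * φ 1 := by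
        rw [H67.dd_succ, map_mul, H67.dd_zero, H67.dd_zero, FreeMagma.lift_of, FreeMagma.lift_of]
        rfl
      rw [this]
      exact mul_mem_BB F B _ _
    · obtain ⟨σ, hσ⟩ := hM.rel.ext fun j => x (j + N)
      obtain ⟨Ψ, hΨ⟩ := hM.rel.ext fun j => if j < N then x j else σ (Φ (x j))
      obtain ⟨Ω, hΩ⟩ := hM.rel.ext fun j => if j < N then Φ (x j) else x (j - N)
      have hid : Ω.comp σ = NonUnitalAlgHom.id F B := by
        refine hM.hom_ext _ _ fun i => ?_
        rw [NonUnitalAlgHom.comp_apply, hσ, hΩ]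
        have : ¬ i + N < N := by omega
        simp [this]
      have h1 : Φ g = (Ω.comp Ψ) g := by
        refine hg.dep _ _ (fun i hi => ?_) fun i => ?_
        · rw [NonUnitalAlgHom.comp_apply, hΨ, if_pos hi, hΩ, if_pos hi]
        · rw [NonUnitalAlgHom.comp_apply, hΨ, if_neg (by omega)]
          have := DFunLike.congr_fun hid (Φ (x (N + e i)))
          exact this.symm
      rw [h1, NonUnitalAlgHom.comp_apply, ← hg.val Ψ fun i hi => by rw [hΨ, if_pos hi]]
      rw [hn ι (by rw [hc]; exact hm) ψ hA _ fun i => ?_, map_zero]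
      rw [hΨ, if_neg (by omega)]
      exact hom_BB σ _ (hΦ _)
  obtain ⟨Φ, hΦ⟩ := hM.rel.ext fun j => if j < N then x j else
    (if hj : j - N < Fintype.card ι then z (eq.symm ⟨j - N, hj⟩) else 0)
  have h1 := hg.val Φ fun i hi => by rw [hΦ, if_pos hi]
  rw [hg0, map_zero] at h1
  rw [← h1]
  congr 1
  funext i
  have hlt : e i < Fintype.card ι := (eq i).isLt
  rw [hΦ, if_neg (by omega), dif_pos (by rw [Nat.add_sub_cancel_left]; exact hlt)]
  congr 1
  symm
  rw [Equiv.symm_apply_eq]
  apply Fin.ext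
  simp [he]

end Pool.Agent.C3.H48
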